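import Pool.Agent.H752.KM.Stubs

/-! Task K2: the betting game against a sparse random environment. -/

namespace Pool.Agent.H752.KM

open Finset

namespace GameK2

open Classical

/-- the bit number `l` -/
noncomputable def bl {ι : Type} (st : ι → ℕ) (l : ℕ) (η : ι → Bool) : Bool :=
  decide (∃ i, st i = l ∧ η i = true)

lemma bl_iff {ι : Type} (st : ι → ℕ) (l : ℕ) (η : ι → Bool) :
    bl st l η = true ↔ ∃ i, st i = l ∧ η i = true := by
  unfold bl
  exact decide_eq_true_iff

variable {ι : Type} [Fintype ι]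

/-- weight -/
noncomputable def wB (p : ι → ℝ) (η : ι → Bool) : ℝ := ∏ i, (if η i then p i else 1 - p i)

/-- expectation -/
noncomputable def EX (p : ι → ℝ) (F : (ι → Bool) → ℝ) : ℝ := ∑ η, wB p η * F η

lemma sum_prod (f : ι → Bool → ℝ) :
    ∑ η : ι → Bool, ∏ i, f i (η i) = ∏ i, (f i true + f i false) := by
  have h := Finset.prod_univ_sum (κ := fun _ : ι => Bool) (t := fun _ => Finset.univ) (f := f)
  rw [Fintype.piFinset_univ] at h
  rw [← h]
  exact Finset.prod_congr rfl (fun i _ => Fintype.sum_bool _)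

lemma EX_prod (p : ι → ℝ) (g : ι → Bool → ℝ) :
    EX p (fun η => ∏ i, g i (η i)) = ∏ i, (p i * g i true + (1 - p i) * g i false) := by
  have h : EX p (fun η => ∏ i, g i (η i)) =
      ∑ η : ι → Bool, ∏ i, ((if η i then p i else 1 - p i) * g i (η i)) := by
    unfold EX wB
    exact Finset.sum_congr rfl (fun η _ => Finset.prod_mul_distrib.symm)
  rw [h, sum_prod (fun i b => (if b then p i else 1 - p i) * g i b)]
  simp

lemma EX_one (p : ι → ℝ) : EX p (fun _ => 1) = 1 := by
  have h := EX_prod p (fun _ _ => 1)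
  simpa using h

lemma wB_nonneg {p : ι → ℝ} (hp : ∀ i, 0 ≤ p i ∧ p i ≤ 1) (η : ι → Bool) : 0 ≤ wB p η := by
  unfold wB
  refine Finset.prod_nonneg (fun i _ => ?_)
  split_ifs
  · exact (hp i).1
  · linarith [(hp i).2]

lemma EX_mono {p : ι → ℝ} (hp : ∀ i, 0 ≤ p i ∧ p i ≤ 1) {F F' : (ι → Bool) → ℝ}
    (h : ∀ η, F η ≤ F' η) : EX p F ≤ EX p F' :=
  Finset.sum_le_sum (fun η _ => mul_le_mul_of_nonneg_left (h η) (wB_nonneg hp η))

lemma EX_add (p : ι → ℝ) (F F' : (ι → Bool) → ℝ) :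
    EX p (fun η => F η + F' η) = EX p F + EX p F' := by
  unfold EX
  rw [← Finset.sum_add_distrib]
  exact Finset.sum_congr rfl (fun η _ => by ring)

lemma EX_sub (p : ι → ℝ) (F F' : (ι → Bool) → ℝ) :
    EX p (fun η => F η - F' η) = EX p F - EX p F' := by
  unfold EX
  rw [← Finset.sum_sub_distrib]
  exact Finset.sum_congr rfl (fun η _ => by ring)

lemma EX_mul (p : ι → ℝ) (a : ℝ) (F : (ι → Bool) → ℝ) :
    EX p (fun η => a * F η) = a * EX p F := by
  unfold EX
  rw [Finset.mul_sum]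
  exact Finset.sum_congr rfl (fun η _ => by ring)

lemma EX_const (p : ι → ℝ) (a : ℝ) : EX p (fun _ => a) = a := by
  have h := EX_mul p a (fun _ => 1)
  rw [EX_one] at h
  simpa using h

lemma EX_sum {κ : Type} (s : Finset κ) (p : ι → ℝ) (F : κ → (ι → Bool) → ℝ) :
    EX p (fun η => ∑ k ∈ s, F k η) = ∑ k ∈ s, EX p (F k) := by
  unfold EX
  rw [Finset.sum_comm]
  exact Finset.sum_congr rfl (fun η _ => Finset.mul_sum _ _ _)

lemma EX_nonneg {p : ι → ℝ} (hp : ∀ i, 0 ≤ p i ∧ p i ≤ 1) {F : (ι → Bool) → ℝ}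
    (h : ∀ η, 0 ≤ F η) : 0 ≤ EX p F :=
  Finset.sum_nonneg (fun η _ => mul_nonneg (wB_nonneg hp η) (h η))

lemma PrB_eq (p : ι → ℝ) (E : (ι → Bool) → Prop) :
    PrB p E = EX p (fun η => if E η then 1 else 0) := by
  unfold PrB EX wB
  refine Finset.sum_congr rfl (fun η _ => ?_)
  by_cases h : E η
  · simp only [if_pos h, mul_one]
  · simp only [if_neg h, mul_zero]

lemma EX_true (p : ι → ℝ) (i : ι) : EX p (fun ζ => if ζ i = true then 1 else 0) = p i := by
  have h := EX_prod p (fun j b => if j = i then (if b = true then 1 else 0) else 1)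
  have h1 : (fun ζ : ι → Bool => ∏ j, (if j = i then (if ζ j = true then (1 : ℝ) else 0) else 1)) =
      fun ζ => if ζ i = true then 1 else 0 := by
    funext ζ
    rw [Finset.prod_ite_eq' Finset.univ i (fun j => if ζ j = true then (1 : ℝ) else 0),
      if_pos (Finset.mem_univ i)]
  rw [h1] at h
  rw [h]
  have h2 : ∀ j, (p j * (if j = i then (if true = true then (1 : ℝ) else 0) else 1) +
      (1 - p j) * (if j = i then (if false = true then (1 : ℝ) else 0) else 1)) =
      if j = i then p j else 1 := by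
    intro j
    by_cases hj : j = i
    · simp [hj]
    · simp [hj]
  rw [Finset.prod_congr rfl (fun j _ => h2 j), Finset.prod_ite_eq' Finset.univ i p,
    if_pos (Finset.mem_univ i)]

lemma EX_block (st : ι → ℕ) (l : ℕ) (p : ι → ℝ) :
    EX p (fun ζ => if bl st l ζ = true then 0 else 1) =
      ∏ i, (if st i = l then 1 - p i else 1) := by
  have h := EX_prod p (fun j b => if st j = l then (if b = true then 0 else 1) else 1)
  have h1 : (fun ζ : ι → Bool => ∏ j, (if st j = l then (if ζ j = true then (0 : ℝ) else 1) else 1)) =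
      fun ζ => if bl st l ζ = true then 0 else 1 := by
    funext ζ
    by_cases hex : ∃ i, st i = l ∧ ζ i = true
    · rw [if_pos ((bl_iff st l ζ).mpr hex)]
      obtain ⟨i, hi1, hi2⟩ := hex
      exact Finset.prod_eq_zero (Finset.mem_univ i) (by rw [if_pos hi1, if_pos hi2])
    · rw [if_neg (fun h' => hex ((bl_iff st l ζ).mp h'))]
      refine Finset.prod_eq_one (fun i _ => ?_)
      by_cases hi : st i = l
      · rw [if_pos hi, if_neg (fun h' => hex ⟨i, hi, h'⟩)]
      · rw [if_neg hi]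
  rw [h1] at h
  rw [h]
  refine Finset.prod_congr rfl (fun j _ => ?_)
  by_cases hj : st j = l
  · simp [hj]
  · simp [hj]

/-- the part before `l` -/
def lo (st : ι → ℕ) (l : ℕ) (η : ι → Bool) : ι → Bool := fun i => if st i < l then η i else false

/-- mixture -/
def mg (st : ι → ℕ) (l : ℕ) (η ζ : ι → Bool) : ι → Bool := fun i => if st i < l then η i else ζ i

omit [Fintype ι] in
lemma mg_mg (st : ι → ℕ) (l : ℕ) (η ζ : ι → Bool) : mg st l (mg st l η ζ) (mg st l ζ η) = η := by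
  funext i
  unfold mg
  split_ifs <;> rfl

omit [Fintype ι] in
lemma lo_mg (st : ι → ℕ) {l l' : ℕ} (h : l' ≤ l) (η ζ : ι → Bool) :
    lo st l' (mg st l η ζ) = lo st l' η := by
  funext i
  unfold lo mg
  split_ifs with h1 h2
  · rfl
  · omega
  · rfl

lemma wB_mg (st : ι → ℕ) (l : ℕ) (p : ι → ℝ) (η ζ : ι → Bool) :
    wB p (mg st l η ζ) * wB p (mg st l ζ η) = wB p η * wB p ζ := by
  unfold wB
  rw [← Finset.prod_mul_distrib, ← Finset.prod_mul_distrib]
  refine Finset.prod_congr rfl (fun i _ => ?_)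
  unfold mg
  by_cases h : st i < l
  · simp only [h, if_true]
  · simp only [h, if_false]
    ring

lemma EX_resample (st : ι → ℕ) (l : ℕ) (p : ι → ℝ) (F : (ι → Bool) → ℝ) :
    EX p (fun η => EX p (fun ζ => F (mg st l η ζ))) = EX p F := by
  have h1 : EX p (fun η => EX p (fun ζ => F (mg st l η ζ))) =
      ∑ x : (ι → Bool) × (ι → Bool), wB p x.1 * wB p x.2 * F (mg st l x.1 x.2) := by
    rw [Fintype.sum_prod_type]
    unfold EX
    refine Finset.sum_congr rfl (fun η _ => ?_)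
    rw [Finset.mul_sum]
    exact Finset.sum_congr rfl (fun ζ _ => by ring)
  let e : ((ι → Bool) × (ι → Bool)) ≃ ((ι → Bool) × (ι → Bool)) :=
    { toFun := fun x => (mg st l x.1 x.2, mg st l x.2 x.1)
      invFun := fun x => (mg st l x.1 x.2, mg st l x.2 x.1)
      left_inv := fun x => Prod.ext (mg_mg st l x.1 x.2) (mg_mg st l x.2 x.1)
      right_inv := fun x => Prod.ext (mg_mg st l x.1 x.2) (mg_mg st l x.2 x.1) }
  have h2 : ∑ x : (ι → Bool) × (ι → Bool), wB p x.1 * wB p x.2 * F (mg st l x.1 x.2) =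
      ∑ x : (ι → Bool) × (ι → Bool), wB p x.1 * wB p x.2 * F x.1 := by
    refine Fintype.sum_equiv e _ _ (fun x => ?_)
    show _ = wB p (mg st l x.1 x.2) * wB p (mg st l x.2 x.1) * F (mg st l x.1 x.2)
    rw [wB_mg]
  rw [h1, h2, Fintype.sum_prod_type]
  have h3 : ∀ η : ι → Bool, ∑ ζ : ι → Bool, wB p η * wB p ζ * F η = wB p η * F η := by
    intro η
    have h4 := EX_one p
    unfold EX at h4
    simp only [mul_one] at h4
    calc ∑ ζ : ι → Bool, wB p η * wB p ζ * F η = (wB p η * F η) * ∑ ζ : ι → Bool, wB p ζ := by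
          rw [Finset.mul_sum]
          exact Finset.sum_congr rfl (fun ζ _ => by ring)
      _ = wB p η * F η := by rw [h4, mul_one]
  exact Finset.sum_congr rfl (fun η _ => h3 η)

omit [Fintype ι] in
lemma We_congr (st : ι → ℕ) {l l' : ℕ} (h : l' ≤ l) (η η' : ι → Bool)
    (hh : ∀ i, st i < l → η i = η' i) : We st η l' = We st η' l' := by
  unfold We Wd
  refine List.map_congr_left (fun j hj => ?_)
  have hj' : j < l' := List.mem_range.mp hj
  have h1 : (∃ i, st i = j ∧ η i = true) ↔ (∃ i, st i = j ∧ η' i = true) := by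
    constructor
    · rintro ⟨i, hi, h2⟩
      exact ⟨i, hi, by rw [← hh i (by omega)]; exact h2⟩
    · rintro ⟨i, hi, h2⟩
      exact ⟨i, hi, by rw [hh i (by omega)]; exact h2⟩
  exact decide_eq_decide.mpr h1

omit [Fintype ι] in
lemma We_mg (st : ι → ℕ) {l l' : ℕ} (h : l' ≤ l) (η ζ : ι → Bool) :
    We st (mg st l η ζ) l' = We st η l' :=
  We_congr st h _ _ (fun i hi => by unfold mg; rw [if_pos hi])

omit [Fintype ι] in
lemma We_length (st : ι → ℕ) (η : ι → Bool) (l : ℕ) : (We st η l).length = l := by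
  unfold We Wd; simp

omit [Fintype ι] in
lemma We_succ (st : ι → ℕ) (η : ι → Bool) (l : ℕ) :
    We st η (l + 1) = We st η l ++ [bl st l η] := by
  unfold We Wd
  rw [List.range_succ, List.map_append]
  rfl

omit [Fintype ι] in
lemma bl_mg (st : ι → ℕ) (l : ℕ) (η ζ : ι → Bool) : bl st l (mg st l η ζ) = bl st l ζ := by
  unfold bl
  refine decide_eq_decide.mpr ?_
  constructor
  · rintro ⟨i, hi, h⟩
    refine ⟨i, hi, ?_⟩
    unfold mg at h
    rwa [if_neg (by omega)] at h
  · rintro ⟨i, hi, h⟩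
    refine ⟨i, hi, ?_⟩
    unfold mg
    rwa [if_neg (by omega)]

/-- the queries at stage `l` -/
noncomputable def RR (st : ι → ℕ) (Q : (ι → Bool) → List Bool → Finset ι) (l : ℕ) (η : ι → Bool) :
    Finset ι :=
  Q (lo st l η) (We st η l) ∪ (Q (lo st l η) (We st η l ++ [false]) ∪
    Q (lo st l η) (We st η l ++ [true]))

omit [Fintype ι] in
lemma RR_card (st : ι → ℕ) (Q : (ι → Bool) → List Bool → Finset ι) (q : ℕ → ℕ)
    (hQ : ∀ η w, (Q η w).card ≤ q w.length) (l : ℕ) (η : ι → Bool) :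
    (RR st Q l η).card ≤ q l + 2 * q (l + 1) := by
  unfold RR
  have h1 := hQ (lo st l η) (We st η l)
  have h2 := hQ (lo st l η) (We st η l ++ [false])
  have h3 := hQ (lo st l η) (We st η l ++ [true])
  rw [List.length_append, We_length] at h2 h3
  rw [We_length] at h1
  simp only [List.length_cons, List.length_nil, zero_add] at h2 h3
  refine (Finset.card_union_le _ _).trans ?_
  have h4 := Finset.card_union_le (Q (lo st l η) (We st η l ++ [false]))
    (Q (lo st l η) (We st η l ++ [true]))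
  omega

/-- the bad event -/
def BadG (st : ι → ℕ) (Q : (ι → Bool) → List Bool → Finset ι) (l : ℕ) (η : ι → Bool) : Prop :=
  ∃ i ∈ RR st Q l η, l ≤ st i ∧ η i = true

lemma bad_le (st : ι → ℕ) (p : ι → ℝ) (Q : (ι → Bool) → List Bool → Finset ι) (q : ℕ → ℕ)
    (ρ : ℕ → ℝ) (l : ℕ) (hp : ∀ i, 0 ≤ p i ∧ p i ≤ 1) (hQ : ∀ η w, (Q η w).card ≤ q w.length)
    (hρ : ∀ i, l ≤ st i → p i ≤ ρ l) (hρ0 : 0 ≤ ρ l) :
    EX p (fun η => if BadG st Q l η then 1 else 0) ≤ ((q l : ℝ) + 2 * q (l + 1)) * ρ l := by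
  rw [← EX_resample st l p]
  have h1 : ∀ η : ι → Bool, EX p (fun ζ => if BadG st Q l (mg st l η ζ) then (1 : ℝ) else 0) ≤
      ((q l : ℝ) + 2 * q (l + 1)) * ρ l := by
    intro η
    have hR : ∀ ζ, RR st Q l (mg st l η ζ) = RR st Q l η := by
      intro ζ
      unfold RR
      rw [lo_mg st le_rfl, We_mg st le_rfl]
    have h2 : EX p (fun ζ => if BadG st Q l (mg st l η ζ) then (1 : ℝ) else 0) ≤
        EX p (fun ζ => ∑ i ∈ RR st Q l η, if l ≤ st i then (if ζ i = true then (1 : ℝ) else 0) else 0) := by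
      refine EX_mono hp (fun ζ => ?_)
      have hnn : ∀ i ∈ RR st Q l η,
          (0 : ℝ) ≤ if l ≤ st i then (if ζ i = true then (1 : ℝ) else 0) else 0 := by
        intro i _
        split_ifs <;> norm_num
      by_cases hb : BadG st Q l (mg st l η ζ)
      · rw [if_pos hb]
        obtain ⟨i, hi, h3, h4⟩ := hb
        rw [hR] at hi
        have h5 : ζ i = true := by
          unfold mg at h4
          rwa [if_neg (by omega)] at h4
        calc (1 : ℝ) = if l ≤ st i then (if ζ i = true then (1 : ℝ) else 0) else 0 := by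
              rw [if_pos h3, if_pos h5]
          _ ≤ _ := Finset.single_le_sum hnn hi
      · rw [if_neg hb]
        exact Finset.sum_nonneg hnn
    refine h2.trans ?_
    rw [EX_sum]
    have h3 : ∀ i ∈ RR st Q l η,
        EX p (fun ζ => if l ≤ st i then (if ζ i = true then (1 : ℝ) else 0) else 0) ≤ ρ l := by
      intro i _
      by_cases h4 : l ≤ st i
      · simp only [if_pos h4]
        rw [EX_true]
        exact hρ i h4
      · simp only [if_neg h4]
        rw [EX_const]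
        exact hρ0
    refine (Finset.sum_le_card_nsmul _ _ _ h3).trans ?_
    rw [nsmul_eq_mul]
    refine mul_le_mul_of_nonneg_right ?_ hρ0
    have h5 := RR_card st Q q hQ l η
    calc ((RR st Q l η).card : ℝ) ≤ ((q l + 2 * q (l + 1) : ℕ) : ℝ) := by exact_mod_cast h5
      _ = (q l : ℝ) + 2 * q (l + 1) := by push_cast; ring
  calc EX p (fun η => EX p (fun ζ => if BadG st Q l (mg st l η ζ) then (1 : ℝ) else 0)) ≤
      EX p (fun _ => ((q l : ℝ) + 2 * q (l + 1)) * ρ l) := EX_mono hp h1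
    _ = _ := EX_const _ _

/-- the value at stage `l` -/
noncomputable def xx (st : ι → ℕ) (c : (ι → Bool) → List Bool → ℝ) (l : ℕ) (η : ι → Bool) : ℝ :=
  c (lo st l η) (We st η l)

/-- the step is regular -/
def Hl (st : ι → ℕ) (c : (ι → Bool) → List Bool → ℝ) (Q : (ι → Bool) → List Bool → Finset ι)
    (l : ℕ) (η : ι → Bool) : Prop :=
  (∀ i ∈ RR st Q l η, st i = l → η i = false) ∧
  c (lo st l η) (We st η l ++ [false]) + c (lo st l η) (We st η l ++ [true]) ≤ 2 * xx st c l η ∧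
  xx st c l η < 1

/-- all steps before `l` are regular -/
def GG (st : ι → ℕ) (c : (ι → Bool) → List Bool → ℝ) (Q : (ι → Bool) → List Bool → Finset ι)
    (κ : ℝ) (i₀ l : ℕ) (η : ι → Bool) : Prop :=
  xx st c i₀ η ≤ κ ∧ ∀ l', i₀ ≤ l' → l' < l → Hl st c Q l' η

omit [Fintype ι] in
lemma lo_lo (st : ι → ℕ) {l l' : ℕ} (h : l' ≤ l) (η η' : ι → Bool)
    (hh : ∀ i, st i < l → η i = η' i) : lo st l' η = lo st l' η' := by
  funext i
  unfold lo
  split_ifs with h1
  · exact hh i (by omega)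
  · rfl

omit [Fintype ι] in
lemma xx_congr (st : ι → ℕ) (c : (ι → Bool) → List Bool → ℝ) {l l' : ℕ} (h : l' ≤ l)
    (η η' : ι → Bool) (hh : ∀ i, st i < l → η i = η' i) : xx st c l' η = xx st c l' η' := by
  unfold xx
  rw [lo_lo st h η η' hh, We_congr st h η η' hh]

omit [Fintype ι] in
lemma Hl_congr (st : ι → ℕ) (c : (ι → Bool) → List Bool → ℝ)
    (Q : (ι → Bool) → List Bool → Finset ι) {l l' : ℕ} (h : l' < l)
    (η η' : ι → Bool) (hh : ∀ i, st i < l → η i = η' i) (hH : Hl st c Q l' η) :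
    Hl st c Q l' η' := by
  obtain ⟨h1, h2, h3⟩ := hH
  have e1 := lo_lo st h.le η η' hh
  have e2 := We_congr st h.le η η' hh
  have e3 := xx_congr st c h.le η η' hh
  unfold Hl
  unfold RR at h1 ⊢
  rw [← e1, ← e2, ← e3]
  exact ⟨fun i hi hi2 => by rw [← hh i (by omega)]; exact h1 i hi hi2, h2, h3⟩

omit [Fintype ι] in
lemma GG_congr (st : ι → ℕ) (c : (ι → Bool) → List Bool → ℝ)
    (Q : (ι → Bool) → List Bool → Finset ι) (κ : ℝ) {i₀ l : ℕ} (h : i₀ ≤ l)
    (η η' : ι → Bool) (hh : ∀ i, st i < l → η i = η' i) :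
    GG st c Q κ i₀ l η ↔ GG st c Q κ i₀ l η' := by
  constructor
  · rintro ⟨h1, h2⟩
    exact ⟨by rw [← xx_congr st c h η η' hh]; exact h1,
      fun l' h3 h4 => Hl_congr st c Q h4 η η' hh (h2 l' h3 h4)⟩
  · rintro ⟨h1, h2⟩
    exact ⟨by rw [xx_congr st c h η η' hh]; exact h1,
      fun l' h3 h4 => Hl_congr st c Q h4 η' η (fun i hi => (hh i hi).symm) (h2 l' h3 h4)⟩

/-- `a_l` -/
noncomputable def aa (p : ι → ℝ) (st : ι → ℕ) (c : (ι → Bool) → List Bool → ℝ)
    (Q : (ι → Bool) → List Bool → Finset ι) (κ : ℝ) (i₀ l : ℕ) : ℝ :=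
  EX p (fun η => if GG st c Q κ i₀ l η then xx st c l η else 0)

/-- `u_l` -/
noncomputable def uu' (p : ι → ℝ) (st : ι → ℕ) (c : (ι → Bool) → List Bool → ℝ)
    (Q : (ι → Bool) → List Bool → Finset ι) (κ : ℝ) (i₀ l : ℕ) : ℝ :=
  EX p (fun η => if GG st c Q κ i₀ l η ∧ 1 ≤ xx st c l η then 1 else 0)

lemma step (st : ι → ℕ) (p : ι → ℝ) (c : (ι → Bool) → List Bool → ℝ)
    (Q : (ι → Bool) → List Bool → Finset ι) (κ : ℝ) (i₀ l : ℕ) (e : ℝ) (he : 0 ≤ e)
    (hl : i₀ ≤ l) (hp : ∀ i, 0 ≤ p i ∧ p i ≤ 1) (hc : ∀ η w, 0 ≤ c η w)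
    (hcQ : ∀ η η' w, (∀ i ∈ Q η w, η' i = η i) → c η' w = c η w)
    (hP : |(∏ i, if st i = l then 1 - p i else 1) - 1 / 2| ≤ e / 2) :
    aa p st c Q κ i₀ (l + 1) ≤ (1 + e) * (aa p st c Q κ i₀ l - uu' p st c Q κ i₀ l) := by
  -- the condition
  let T : (ι → Bool) → Prop := fun η => GG st c Q κ i₀ l η ∧
    c (lo st l η) (We st η l ++ [false]) + c (lo st l η) (We st η l ++ [true]) ≤ 2 * xx st c l η ∧
    xx st c l η < 1
  have hT : ∀ η ζ, T (mg st l η ζ) ↔ T η := by
    intro η ζ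
    have hh : ∀ i, st i < l → mg st l η ζ i = η i := fun i hi => by unfold mg; rw [if_pos hi]
    show (_ ∧ _ ∧ _) ↔ (_ ∧ _ ∧ _)
    rw [GG_congr st c Q κ hl _ _ hh, lo_lo st le_rfl _ _ hh, We_congr st le_rfl _ _ hh,
      xx_congr st c le_rfl _ _ hh]
  have h1 : aa p st c Q κ i₀ (l + 1) ≤
      EX p (fun η => if T η then c (lo st l η) (We st η l ++ [bl st l η]) else 0) := by
    refine EX_mono hp (fun η => ?_)
    by_cases hG : GG st c Q κ i₀ (l + 1) η
    · have hH := hG.2 l hl (Nat.lt_succ_self l)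
      have hTη : T η := ⟨⟨hG.1, fun l' h3 h4 => hG.2 l' h3 (by omega)⟩, hH.2.1, hH.2.2⟩
      rw [if_pos hG, if_pos hTη]
      unfold xx
      rw [We_succ]
      refine le_of_eq (hcQ _ _ _ (fun i hi => ?_))
      have hiR : i ∈ RR st Q l η := by
        unfold RR
        rw [Finset.mem_union, Finset.mem_union]
        right
        cases hb : bl st l η
        · left; rwa [hb] at hi
        · right; rwa [hb] at hi
      unfold lo
      by_cases h5 : st i < l
      · rw [if_pos h5, if_pos (by omega)]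
      · rw [if_neg h5]
        by_cases h6 : st i < l + 1
        · rw [if_pos h6]
          exact hH.1 i hiR (by omega)
        · rw [if_neg h6]
    · rw [if_neg hG]
      split_ifs
      · exact hc _ _
      · exact le_rfl
  refine h1.trans ?_
  rw [← EX_resample st l p]
  -- the inner expectation
  have h2 : ∀ η : ι → Bool, EX p (fun ζ => if T (mg st l η ζ) then
      c (lo st l (mg st l η ζ)) (We st (mg st l η ζ) l ++ [bl st l (mg st l η ζ)]) else 0) ≤
      (1 + e) * ((if GG st c Q κ i₀ l η then xx st c l η else 0) -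
        (if GG st c Q κ i₀ l η ∧ 1 ≤ xx st c l η then 1 else 0)) := by
    intro η
    by_cases hTη : T η
    · have h3 : (fun ζ => if T (mg st l η ζ) then
          c (lo st l (mg st l η ζ)) (We st (mg st l η ζ) l ++ [bl st l (mg st l η ζ)]) else 0) =
          fun ζ => c (lo st l η) (We st η l ++ [true]) +
            (c (lo st l η) (We st η l ++ [false]) - c (lo st l η) (We st η l ++ [true])) *
              (if bl st l ζ = true then 0 else 1) := by
        funext ζ
        rw [if_pos ((hT η ζ).mpr hTη), lo_mg st le_rfl, We_mg st le_rfl, bl_mg]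
        cases hb : bl st l ζ
        · simp
        · simp
      rw [h3, EX_add, EX_const, EX_mul, EX_block]
      have hP' := abs_le.mp hP
      set P := (∏ i, if st i = l then 1 - p i else 1) with hPdef
      have h4 := hc (lo st l η) (We st η l ++ [false])
      have h5 := hc (lo st l η) (We st η l ++ [true])
      have h6 := hTη.2.1
      have h7 : ¬ (GG st c Q κ i₀ l η ∧ 1 ≤ xx st c l η) := fun h => absurd h.2 (not_le.mpr hTη.2.2)
      rw [if_pos hTη.1, if_neg h7]
      nlinarith [hP'.1, hP'.2]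
    · have h3 : (fun ζ => if T (mg st l η ζ) then
          c (lo st l (mg st l η ζ)) (We st (mg st l η ζ) l ++ [bl st l (mg st l η ζ)]) else 0) =
          fun _ => 0 := by
        funext ζ
        rw [if_neg (fun h => hTη ((hT η ζ).mp h))]
      rw [h3, EX_const]
      refine mul_nonneg (by linarith) ?_
      have h8 : 0 ≤ xx st c l η := hc _ _
      by_cases hG : GG st c Q κ i₀ l η
      · rw [if_pos hG]
        by_cases hx : 1 ≤ xx st c l η
        · rw [if_pos ⟨hG, hx⟩]; linarith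
        · rw [if_neg (fun h => hx h.2)]; linarith
      · rw [if_neg hG, if_neg (fun h => hG h.1)]; norm_num
  refine (EX_mono hp h2).trans (le_of_eq ?_)
  rw [EX_mul, EX_sub]
  rfl

lemma sum_u (st : ι → ℕ) (p : ι → ℝ) (c : (ι → Bool) → List Bool → ℝ)
    (Q : (ι → Bool) → List Bool → Finset ι) (κ : ℝ) (ε : ℕ → ℝ) (i₀ M : ℕ) (hM : i₀ ≤ M)
    (hκ : 0 ≤ κ)
    (hε : ∀ l, 0 ≤ ε l) (hp : ∀ i, 0 ≤ p i ∧ p i ≤ 1) (hc : ∀ η w, 0 ≤ c η w)
    (hcQ : ∀ η η' w, (∀ i ∈ Q η w, η' i = η i) → c η' w = c η w)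
    (hP : ∀ l, i₀ ≤ l → l < M → |(∏ i, if st i = l then 1 - p i else 1) - 1 / 2| ≤ ε l / 2) :
    ∑ l ∈ Icc i₀ M, uu' p st c Q κ i₀ l ≤ κ * ∏ l ∈ Ico i₀ M, (1 + ε l) := by
  have hu0 : ∀ l, 0 ≤ uu' p st c Q κ i₀ l := fun l => EX_nonneg hp (fun η => by split_ifs <;> norm_num)
  have hPi1 : ∀ l, 1 ≤ ∏ j ∈ Ico l M, (1 + ε j) := by
    intro l
    exact Finset.prod_induction _ (fun x => (1 : ℝ) ≤ x)
      (fun a b ha hb => one_le_mul_of_one_le_of_one_le ha hb) le_rfl
      (fun j _ => by linarith [hε j])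
  have key : ∀ l, i₀ ≤ l → l ≤ M →
      ∑ j ∈ Ico i₀ l, uu' p st c Q κ i₀ j + aa p st c Q κ i₀ l * ∏ j ∈ Ico l M, (1 + ε j) ≤
        aa p st c Q κ i₀ i₀ * ∏ j ∈ Ico i₀ M, (1 + ε j) := by
    intro l hl
    induction l, hl using Nat.le_induction with
    | base => intro _; simp
    | succ l hl ih =>
      intro hlM
      have h1 := ih (by omega)
      have h2 := step st p c Q κ i₀ l (ε l) (hε l) hl hp hc hcQ (hP l hl (by omega))
      rw [Finset.sum_Ico_succ_top hl]
      have h3 : ∏ j ∈ Ico l M, (1 + ε j) = (1 + ε l) * ∏ j ∈ Ico (l + 1) M, (1 + ε j) :=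
        Finset.prod_eq_prod_Ico_succ_bot (by omega) _
      have h4 := hPi1 l
      have h5 := hPi1 (l + 1)
      have h6 := hu0 l
      have h7 : aa p st c Q κ i₀ (l + 1) * ∏ j ∈ Ico (l + 1) M, (1 + ε j) ≤
          (aa p st c Q κ i₀ l - uu' p st c Q κ i₀ l) * ∏ j ∈ Ico l M, (1 + ε j) := by
        rw [h3]
        calc aa p st c Q κ i₀ (l + 1) * ∏ j ∈ Ico (l + 1) M, (1 + ε j) ≤
            ((1 + ε l) * (aa p st c Q κ i₀ l - uu' p st c Q κ i₀ l)) *
              ∏ j ∈ Ico (l + 1) M, (1 + ε j) := mul_le_mul_of_nonneg_right h2 (by linarith)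
          _ = _ := by ring
      nlinarith
  have h1 := key M hM le_rfl
  have h2 : aa p st c Q κ i₀ i₀ ≤ κ := by
    calc aa p st c Q κ i₀ i₀ ≤ EX p (fun _ => κ) := by
          refine EX_mono hp (fun η => ?_)
          split_ifs with hG
          · exact hG.1
          · exact hκ
      _ = κ := EX_const _ _
  have h3 : uu' p st c Q κ i₀ M ≤ aa p st c Q κ i₀ M := by
    refine EX_mono hp (fun η => ?_)
    by_cases hG : GG st c Q κ i₀ M η
    · rw [if_pos hG]
      by_cases hx : 1 ≤ xx st c M η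
      · rw [if_pos ⟨hG, hx⟩]; exact hx
      · rw [if_neg (fun h => hx h.2)]; exact hc _ _
    · rw [if_neg hG, if_neg (fun h => hG h.1)]
  rw [Finset.Ico_self, Finset.prod_empty, mul_one] at h1
  have h4 : ∑ l ∈ Icc i₀ M, uu' p st c Q κ i₀ l =
      ∑ l ∈ Ico i₀ M, uu' p st c Q κ i₀ l + uu' p st c Q κ i₀ M := by
    rw [← Finset.sum_Ico_succ_top hM]
    rfl
  rw [h4]
  have h5 := hPi1 i₀
  have h6 : aa p st c Q κ i₀ i₀ * ∏ j ∈ Ico i₀ M, (1 + ε j) ≤ κ * ∏ j ∈ Ico i₀ M, (1 + ε j) :=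
    mul_le_mul_of_nonneg_right h2 (by linarith)
  linarith

end GameK2

open GameK2 in
open Classical in
theorem t_game : St_game := by
  intro ι _ st p c Q q ρ ε κ i₀ M hM hp hc hcQ hq hρ hP hρ0 hε hκ
  obtain ⟨E, hEd⟩ : ∃ E : (ι → Bool) → Prop, E = fun η => (∀ l, i₀ ≤ l → l < M →
      c η (We st η l ++ [false]) + c η (We st η l ++ [true]) ≤ 2 * c η (We st η l)) ∧
      c η (We st η i₀) ≤ κ ∧ ∃ l, i₀ ≤ l ∧ l ≤ M ∧ 1 ≤ c η (We st η l) := ⟨_, rfl⟩
  rw [← hEd, PrB_eq]
  -- pointwise bound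
  have h1 : ∀ η : ι → Bool, (if E η then (1 : ℝ) else 0) ≤
      ∑ l ∈ Icc i₀ M, (if BadG st Q l η then (1 : ℝ) else 0) +
      ∑ l ∈ Icc i₀ M, (if GG st c Q κ i₀ l η ∧ 1 ≤ xx st c l η then (1 : ℝ) else 0) := by
    intro η
    have hn1 : ∀ l ∈ Icc i₀ M, (0 : ℝ) ≤ if BadG st Q l η then (1 : ℝ) else 0 := by
      intro l _; split_ifs <;> norm_num
    have hn2 : ∀ l ∈ Icc i₀ M, (0 : ℝ) ≤
        if GG st c Q κ i₀ l η ∧ 1 ≤ xx st c l η then (1 : ℝ) else 0 := by
      intro l _; split_ifs <;> norm_num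
    by_cases hE : E η
    · rw [if_pos hE]
      rw [hEd] at hE
      obtain ⟨hE1, hE2, hE3⟩ := hE
      by_cases hB : ∃ l ∈ Icc i₀ M, BadG st Q l η
      · obtain ⟨l, hl, hb⟩ := hB
        have h2 : (1 : ℝ) ≤ ∑ l ∈ Icc i₀ M, (if BadG st Q l η then (1 : ℝ) else 0) := by
          calc (1 : ℝ) = if BadG st Q l η then (1 : ℝ) else 0 := by rw [if_pos hb]
            _ ≤ _ := Finset.single_le_sum hn1 hl
        have h3 := Finset.sum_nonneg hn2
        linarith
      · -- no bad event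
        have hagree : ∀ l, i₀ ≤ l → l ≤ M → ∀ w, Q (lo st l η) w ⊆ RR st Q l η →
            c η w = c (lo st l η) w := by
          intro l hl1 hl2 w hw
          refine hcQ _ _ _ (fun i hi => ?_)
          unfold lo
          by_cases h3 : st i < l
          · rw [if_pos h3]
          · rw [if_neg h3]
            by_contra h4
            exact hB ⟨l, Finset.mem_Icc.mpr ⟨hl1, hl2⟩, i, hw hi, by omega,
              by simpa using h4⟩
        have hx : ∀ l, i₀ ≤ l → l ≤ M → c η (We st η l) = xx st c l η := fun l hl1 hl2 =>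
          hagree l hl1 hl2 _ (by unfold RR; exact Finset.subset_union_left)
        have hx0 : ∀ l, i₀ ≤ l → l ≤ M → c η (We st η l ++ [false]) =
            c (lo st l η) (We st η l ++ [false]) := fun l hl1 hl2 =>
          hagree l hl1 hl2 _ (by
            unfold RR
            exact Finset.subset_union_left.trans Finset.subset_union_right)
        have hx1 : ∀ l, i₀ ≤ l → l ≤ M → c η (We st η l ++ [true]) =
            c (lo st l η) (We st η l ++ [true]) := fun l hl1 hl2 =>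
          hagree l hl1 hl2 _ (by
            unfold RR
            exact Finset.subset_union_right.trans Finset.subset_union_right)
        -- the first time
        have hex : ∃ l, i₀ ≤ l ∧ l ≤ M ∧ 1 ≤ c η (We st η l) := hE3
        obtain ⟨hl1, hl2, hl3⟩ := Nat.find_spec hex
        set l := Nat.find hex with hl
        have hG : GG st c Q κ i₀ l η := by
          refine ⟨by rw [← hx i₀ le_rfl hM]; exact hE2, fun l' h3 h4 => ⟨?_, ?_, ?_⟩⟩
          · intro i hi hi2
            by_contra h5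
            exact hB ⟨l', Finset.mem_Icc.mpr ⟨h3, by omega⟩, i, hi, by omega, by simpa using h5⟩
          · rw [← hx0 l' h3 (by omega), ← hx1 l' h3 (by omega), ← hx l' h3 (by omega)]
            exact hE1 l' h3 (by omega)
          · rw [← hx l' h3 (by omega)]
            by_contra h5
            exact Nat.find_min hex h4 ⟨h3, by omega, not_lt.mp h5⟩
        have h2 : (1 : ℝ) ≤ ∑ l ∈ Icc i₀ M,
            (if GG st c Q κ i₀ l η ∧ 1 ≤ xx st c l η then (1 : ℝ) else 0) := by
          calc (1 : ℝ) = if GG st c Q κ i₀ l η ∧ 1 ≤ xx st c l η then (1 : ℝ) else 0 := by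
                rw [if_pos ⟨hG, by rw [← hx l hl1 hl2]; exact hl3⟩]
            _ ≤ _ := Finset.single_le_sum hn2 (Finset.mem_Icc.mpr ⟨hl1, hl2⟩)
        have h3 := Finset.sum_nonneg hn1
        linarith
    · rw [if_neg hE]
      exact add_nonneg (Finset.sum_nonneg hn1) (Finset.sum_nonneg hn2)
  refine (EX_mono hp h1).trans ?_
  rw [EX_add, EX_sum, EX_sum, add_comm]
  refine add_le_add ?_ ?_
  · exact sum_u st p c Q κ ε i₀ M hM hκ hε hp hc hcQ hP
  · refine Finset.sum_le_sum (fun l hl => ?_)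
    exact bad_le st p Q q ρ l hp hq (hρ l (Finset.mem_Icc.mp hl).2) (hρ0 l)

end Pool.Agent.H752.KM
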